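import Pool.Agent.Helper53.CTR.Goals

/-!
# Project CTR (MP_8b4d68_lc), packet KC: completeness, one level up
-/

set_option autoImplicit false

namespace Pool.Agent.Helper64.CTR

open Pool.Agent.Helper1.TE (Gad app Ch cif)
open Pool.Agent.Helper53.CTR

section regs

variable {Z : Type} (C : ℕ → Z) (e i : ℕ)

/-- The registers `C` with the contents `a, b, d` of `e, e + 1, e + 2` and `w` of `i`. -/
def R (a b d w : Z) : ℕ → Z := fun j =>
  if j = e then a else if j = e + 1 then b else if j = e + 2 then d else if j = i then w else C j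

variable {C e i} {a b d w : Z}

theorem R_e : R C e i a b d w e = a := by simp [R]

theorem R_e1 : R C e i a b d w (e + 1) = b := by simp [R]

theorem R_e2 : R C e i a b d w (e + 2) = d := by simp [R]

theorem R_i (h0 : i ≠ e) (h1 : i ≠ e + 1) (h2 : i ≠ e + 2) : R C e i a b d w i = w := by
  simp [R, h0, h1, h2]

theorem upd_e (a' : Z) : Function.update (R C e i a b d w) e a' = R C e i a' b d w := by
  funext j
  by_cases h : j = e
  · subst h; simp [R]
  · simp [R, h]

theorem upd_e1 (b' : Z) :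
    Function.update (R C e i a b d w) (e + 1) b' = R C e i a b' d w := by
  funext j
  by_cases h : j = e + 1
  · subst h; simp [R]
  · simp [R, h]

theorem upd_e2 (d' : Z) :
    Function.update (R C e i a b d w) (e + 2) d' = R C e i a b d' w := by
  funext j
  by_cases h : j = e + 2
  · subst h; simp [R]
  · simp [R, h]

theorem upd_i (h0 : i ≠ e) (h1 : i ≠ e + 1) (h2 : i ≠ e + 2) (w' : Z) :
    Function.update (R C e i a b d w) i w' = R C e i a b d w' := by
  funext j
  by_cases h : j = i
  · subst h; simp [R, h0, h1, h2]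
  · simp [R, h]

theorem R_self : R C e i (C e) (C (e + 1)) (C (e + 2)) (C i) = C := by
  funext j
  unfold R
  split_ifs with h1 h2 h3 h4
  · rw [h1]
  · rw [h2]
  · rw [h3]
  · rw [h4]
  · rfl

theorem R_V (V : Z → Prop) (hC : ∀ j, V (C j)) (ha : V a) (hb : V b) (hd : V d) (hw : V w) :
    ∀ j, V (R C e i a b d w j) := by
  intro j
  unfold R
  split_ifs
  · exact ha
  · exact hb
  · exact hd
  · exact hw
  · exact hC j

end regs

section

variable {Z : Type} {g : Gad Z}

theorem shl_V (hg : OK6 g) {p : ℕ} (hp : p < g.K) :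
    ∀ (k : ℕ) (z : Z), g.V z → g.V (shl g (List.replicate k p) z) := by
  intro k
  induction k with
  | zero => intro z hz; exact hz
  | succ k ih =>
    intro z hz
    rw [List.replicate_succ]
    exact ih (g.sh p z) (hg.sh_V p hp z hz)

theorem seg_lt {r : ℕ → ℕ → ℕ → ℕ} {bot : ℕ → ℕ → ℕ} {K : ℕ} (hb : ∀ w y, bot w y < K) :
    ∀ u v x : ℕ, seg r bot u v x < K := by
  intro u
  induction u with
  | zero => intro v x; exact hb v x
  | succ u ih => intro v x; exact ih _ _

variable {tst : ℕ → ℕ} {r : ℕ → ℕ → ℕ → ℕ} {q c : ℕ} {C : ℕ → Z} {e i n A : ℕ} {a b d w : Z}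

theorem run3 (hE : Elem) (hK : 1 ≤ g.K) {T x : ℕ} {d' : Z} (hx : x < g.K)
    (h : app g tst T x d = some d') :
    Run g tst r q c (3, e, 0, 0, e + 2, T) n (R C e i a b d w, A)
      (R C e i (g.sh x a) b d' w, A) := by
  refine (hE.1 g tst r q c (3, e, 0, 0, e + 2, T) n _ _ hK
    (Or.inr (show (3 : ℕ) ≠ 0 by norm_num))).2 ⟨x, hx, x, hx, ?_⟩
  have h1 : exec g tst r c (3, e, 0, 0, e + 2, T) x x (R C e i a b d w, A) =
      (app g tst T x (R C e i a b d w (e + 2))).map fun z =>
      (Function.update (Function.update (R C e i a b d w) e (g.sh x (R C e i a b d w e)))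
        (e + 2) z, A) := rfl
  rw [h1, R_e2, R_e, upd_e, h, Option.map_some, upd_e2]

theorem run4 (hE : Elem) (hK : 1 ≤ g.K) {T v x y : ℕ} {d' : Z} (hx : x < g.K) (hy : y < g.K)
    (h : app g tst T (r v x y) d = some d') :
    Run g tst r q c (4, e, e + 1, v, e + 2, T) n (R C e i a b d w, A)
      (R C e i (g.sh x a) (shl g (List.replicate 3 y) b) d' w, A) := by
  refine (hE.1 g tst r q c (4, e, e + 1, v, e + 2, T) n _ _ hK
    (Or.inr (show (4 : ℕ) ≠ 0 by norm_num))).2 ⟨x, hx, y, hy, ?_⟩
  have h1 : exec g tst r c (4, e, e + 1, v, e + 2, T) x y (R C e i a b d w, A) =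
      (app g tst T (r v x y) (R C e i a b d w (e + 2))).map fun z =>
      (Function.update (Function.update (Function.update (R C e i a b d w) e
        (g.sh x (R C e i a b d w e))) (e + 1)
        (shl g (List.replicate 3 y) (R C e i a b d w (e + 1)))) (e + 2) z, A) := rfl
  rw [h1, R_e2, R_e, R_e1, upd_e, upd_e1, h, Option.map_some, upd_e2]

end

theorem gKC : GoalKC := by
  intro hB hE Z g hg tst r q c m u hr hc hu hKC v i T C A x z hC hi hx happ
  set bot := botV r q c m with hbot
  have hbotlt : ∀ w y, bot w y < g.K := fun w y => hr _ _ _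
  obtain ⟨e, he⟩ : ∃ e, e = 2 * (q - (u + 1)) := ⟨_, rfl⟩
  have he2 : 2 * (q - u) = e + 2 := by omega
  rw [← he] at hi ⊢
  set y := seg r bot u (2 * v) x with hy
  set p := r v x y with hp
  have hylt : y < g.K := seg_lt hbotlt _ _ _
  have hplt : p < g.K := hr _ _ _
  have hseg : seg r bot (u + 1) v x = seg r bot u (2 * v + 1) p := rfl
  rw [hseg] at happ
  have h0 : i ≠ e := by omega
  have h1 : i ≠ e + 1 := by omega
  have h2 : i ≠ e + 2 := by omega
  have hK1 := hg.K_pos
  -- the recursive phases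
  have hK7 : ∀ (T' : ℕ) (a b b' d w : Z), g.V a → g.V b → g.V d → g.V w →
      app g tst T' y b = some b' →
      Run g tst r q c (nod (2 * v) (e + 1) T') ((q + 2) * m + (u + 1)) (R C e i a b d w, A)
        (R C e i a b' (shl g (List.replicate 6 x) d) w, A) := by
    intro T' a b b' d w ha hb hd hw h
    have h3 := hKC (2 * v) (e + 1) T' (R C e i a b d w) A x b' (R_V g.V hC ha hb hd hw)
      (Or.inl (by omega)) hx (by rw [R_e1]; exact h)
    rw [he2, R_e2, upd_e1, upd_e2] at h3
    exact h3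
  have hK4 : ∀ (a b d w w' : Z), g.V a → g.V b → g.V d → g.V w →
      app g tst T (seg r bot u (2 * v + 1) p) w = some w' →
      Run g tst r q c (nod (2 * v + 1) i T) ((q + 2) * m + (u + 1)) (R C e i a b d w, A)
        (R C e i a b (shl g (List.replicate 6 p) d) w', A) := by
    intro a b d w w' ha hb hd hw h
    have h3 := hKC (2 * v + 1) i T (R C e i a b d w) A p w' (R_V g.V hC ha hb hd hw)
      (by omega) hplt (by rw [R_i h0 h1 h2]; exact h)
    rw [he2, R_e2, upd_i h0 h1 h2, upd_e2] at h3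
    exact h3
  have hun : ∀ (s : ℕ) (z : Z), app g tst 2 s z = g.un s z := fun s z => rfl
  have hhd : ∀ (s : ℕ) (z : Z), app g tst 1 s z = some (g.hd s z) := fun s z => rfl
  -- contents
  have hVe := hC e
  have hVe1 := hC (e + 1)
  have hVe2 := hC (e + 2)
  have hVi := hC i
  set S := g.sh x with hS
  have hSV : ∀ z, g.V z → g.V (S z) := fun z hz => hg.sh_V x hx z hz
  have hVhx : g.V (g.hd x (C (e + 2))) := hg.hd_V x hx _ hVe2
  have hVhy : g.V (g.hd y (C (e + 1))) := hg.hd_V y hylt _ hVe1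
  have hVhp : g.V (g.hd p (C (e + 2))) := hg.hd_V p hplt _ hVe2
  have hV3 : g.V (shl g (List.replicate 3 y) (g.hd y (C (e + 1)))) := shl_V hg hylt 3 _ hVhy
  have hV6 : g.V (shl g (List.replicate 3 y) (shl g (List.replicate 3 y)
    (g.hd y (C (e + 1))))) := shl_V hg hylt 3 _ hV3
  have hVz : g.V z := by
    -- the value of `app`
    have hlt : seg r bot u (2 * v + 1) p < g.K := seg_lt hbotlt _ _ _
    unfold app at happ
    split_ifs at happ with h3 h4 h5
    · rw [← Option.some.inj happ]; exact hVi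
    · rw [← Option.some.inj happ]; exact hg.hd_V _ hlt _ hVi
    · exact hg.un_V _ hlt _ _ hVi happ
  have e36 : shl g (List.replicate 3 y) (shl g (List.replicate 3 y) (g.hd y (C (e + 1)))) =
      shl g (List.replicate 6 y) (g.hd y (C (e + 1))) := rfl
  refine (hB g tst r q c (nod v i T) ((q + 2) * m + (u + 1)) _ _).2 ⟨fun d => match d with
    | 0 => (R C e i (C e) (C (e + 1)) (C (e + 2)) (C i), A)
    | 1 => (R C e i (S (C e)) (C (e + 1)) (g.hd x (C (e + 2))) (C i), A)
    | 2 => (R C e i (S (C e)) (g.hd y (C (e + 1)))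
        (shl g (List.replicate 6 x) (g.hd x (C (e + 2)))) (C i), A)
    | 3 => (R C e i (S (S (C e))) (g.hd y (C (e + 1))) (C (e + 2)) (C i), A)
    | 4 => (R C e i (S (S (S (C e)))) (shl g (List.replicate 3 y) (g.hd y (C (e + 1))))
        (g.hd p (C (e + 2))) (C i), A)
    | 5 => (R C e i (S (S (S (C e)))) (shl g (List.replicate 3 y) (g.hd y (C (e + 1))))
        (shl g (List.replicate 6 p) (g.hd p (C (e + 2)))) z, A)
    | 6 => (R C e i (S (S (S (S (C e))))) (shl g (List.replicate 3 y)
        (shl g (List.replicate 3 y) (g.hd y (C (e + 1))))) (C (e + 2)) z, A)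
    | 7 => (R C e i (S (S (S (S (S (C e)))))) (shl g (List.replicate 3 y)
        (shl g (List.replicate 3 y) (g.hd y (C (e + 1))))) (g.hd x (C (e + 2))) z, A)
    | 8 => (R C e i (S (S (S (S (S (C e)))))) (C (e + 1))
        (shl g (List.replicate 6 x) (g.hd x (C (e + 2)))) z, A)
    | _ => (R C e i (S (S (S (S (S (S (C e))))))) (C (e + 1)) (C (e + 2)) z, A), ?_, ?_, ?_⟩
  · show (R C e i (C e) (C (e + 1)) (C (e + 2)) (C i), A) = (C, A)
    rw [R_self]
  · show (R C e i (S (S (S (S (S (S (C e))))))) (C (e + 1)) (C (e + 2)) z, A) = _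
    congr 1
    have h3 : Function.update (Function.update C i z) e (shl g (List.replicate 6 x) (C e)) =
        Function.update (Function.update (R C e i (C e) (C (e + 1)) (C (e + 2)) (C i)) i z) e
          (shl g (List.replicate 6 x) (C e)) := by rw [R_self]
    rw [h3, upd_i h0 h1 h2, upd_e]
    rfl
  · intro d hd
    have hsub : sub q (nod v i T) ((q + 2) * m + (u + 1)) d = phK e v i T d := by
      rw [hE.2.1 q m u v i T d hu, he]
    rw [hsub]
    interval_cases d
    · exact run3 hE hK1 hx (hhd _ _)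
    · exact hK7 1 _ _ _ _ _ (hSV _ hVe) hVe1 hVhx hVi (hhd _ _)
    · exact run3 hE hK1 hx ((hun _ _).trans (hg.ok6 x hx _ hVe2))
    · exact run4 hE hK1 hx hylt (hhd _ _)
    · exact hK4 _ _ _ _ _ (hSV _ (hSV _ (hSV _ hVe))) hV3 hVhp hVi happ
    · exact run4 hE hK1 hx hylt ((hun _ _).trans (hg.ok6 p hplt _ hVe2))
    · exact run3 hE hK1 hx (hhd _ _)
    · exact hK7 2 _ _ _ _ _ (hSV _ (hSV _ (hSV _ (hSV _ (hSV _ hVe))))) hV6 hVhx hVz
        ((hun _ _).trans (by rw [e36]; exact hg.ok6 y hylt _ hVe1))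
    · exact run3 hE hK1 hx ((hun _ _).trans (hg.ok6 x hx _ hVe2))

end Pool.Agent.Helper64.CTR
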